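import Pool.Agent.Work.MP_0d206b_gt.Statement
import Pool.Agent.Work.MP_0d206b_gt.Final

/-!
# MP_0d206b_gt: from the working form of the theorem to the form which is handed in

`Final.lean` and `Statement.lean` contain the same definitions (in different packaging).
-/

set_option autoImplicit false

open scoped Manifold ContDiff Topology
open Bundle

noncomputable section

namespace Pool.Agent.Work.MP_0d206b_gt.Bridge

open Pool.Agent.Work.MP_0d206b_gt.St

def c3 (M : MP_0d206b_gt.Closed3) : St.Closed3 := ⟨M.carrier⟩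

theorem finrank_R3 : Module.finrank ℝ R3 = 3 := by
  simp [R3]

def conv {M : MP_0d206b_gt.Closed3} (φ : MP_0d206b_gt.AnosovFlow M) : Anosov (c3 M).carrier where
  flow := ⟨φ.map, φ.smooth, φ.map_zero, φ.map_add⟩
  Es := φ.Es
  Eu := φ.Eu
  rank_s := φ.rank_s
  rank_u := φ.rank_u
  split x := by
    have h : φ.Es x ⊔ φ.Eu x ⊔ Submodule.span ℝ {φ.toSmoothFlow.gen x} = ⊤ := φ.split x
    have h2 : Module.finrank ℝ (↥(φ.Es x ⊔ φ.Eu x ⊔ Submodule.span ℝ {φ.toSmoothFlow.gen x})) = 3 := by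
      rw [h, finrank_top]
      exact finrank_R3
    exact h2
  closed_s := φ.closed_s
  closed_u := φ.closed_u
  inv_s := φ.inv_s
  inv_u := φ.inv_u
  hyp := by
    obtain ⟨g, C, hC, a, ha, h⟩ := φ.hyp
    refine ⟨g, C, a, hC, ha, ?_, ?_⟩
    · intro t x v ht hv
      have key : ∀ s : ℝ, s = t → St.len g (φ.map s x) (φ.toSmoothFlow.der s x v) ≤
          C * Real.exp (-a * t) * St.len g x v := by
        rintro s rfl
        exact (h s ht x).1 v hv
      exact key (1 * t) (one_mul t)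
    · intro t x v ht hv
      have key : ∀ s : ℝ, s = -t → St.len g (φ.map s x) (φ.toSmoothFlow.der s x v) ≤
          C * Real.exp (-a * t) * St.len g x v := by
        rintro s rfl
        exact (h t ht x).2 v hv
      exact key (-1 * t) (neg_one_mul t)

theorem bridge (hmain : MP_0d206b_gt.MainStatement) :
    ∃ (M₁ M₂ : St.Closed3) (φ₁ : Anosov M₁.carrier) (φ₂ : Anosov M₂.carrier),
    Nonempty (St.UnivCover M₁.carrier) ∧ Nonempty (St.UnivCover M₂.carrier) ∧
    ∀ (N₁ : St.UnivCover M₁.carrier) (N₂ : St.UnivCover M₂.carrier),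
      Nonempty (LeafSpace N₁ (weakStable φ₁) ≃ₜ LeafSpace N₂ (weakStable φ₂)) ∧
      IsEmpty (LeafSpace N₁ (weakUnstable φ₁) ≃ₜ LeafSpace N₂ (weakUnstable φ₂)) := by
  obtain ⟨M₁, M₂, φ₁, φ₂, ⟨n₁⟩, ⟨n₂⟩, h⟩ := hmain
  refine ⟨c3 M₁, c3 M₂, conv φ₁, conv φ₂, ⟨⟨n₁.carrier, n₁.proj, n₁.isCovering⟩⟩,
    ⟨⟨n₂.carrier, n₂.proj, n₂.isCovering⟩⟩, fun N₁ N₂ => ?_⟩
  exact h ⟨N₁.carrier, N₁.proj, N₁.isCovering⟩ ⟨N₂.carrier, N₂.proj, N₂.isCovering⟩

end Pool.Agent.Work.MP_0d206b_gt.Bridge
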