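import Pool.Agent.Work.MP_0d206b_gt.M.P1
import Pool.Agent.Work.MP_0d206b_gt.M.P2
import Pool.Agent.Work.MP_0d206b_gt.M.P3
import Pool.Agent.Work.MP_0d206b_gt.M.P4
import Pool.Agent.Work.MP_0d206b_gt.Main

/-! # MP_0d206b_gt: assembly of module M (`StGood0`, `StGoodA`) and compatibility of the plane fields -/

set_option autoImplicit false

open Set Filter Topology
open scoped ContDiff

noncomputable section

namespace Pool.Agent.Work.MP_0d206b_gt

open MP0d206b.Et (shift)

namespace AsmM

theorem facts (D : DA) : Facts D :=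
  have g := MGam.prf
  have p := MPsi.prf D g
  have q := MProper.prf D g p
  have w := MPow.prf D g p
  { gam := g
    log := MLog.prf
    g := MG.prf
    psi := p
    proper := q
    pow := w
    sig := MSig.prf D g MLog.prf p q w (MSigCont.prf D g MLog.prf p q)
    orb := MOrb.prf D g p w }

/-- the compact sets -/
theorem compact_aux (C ρ : ℝ) (hρ : 0 < ρ) :
    IsCompact {e : E | ‖e.1‖ ≤ C ∧ (∀ m ∈ Gam, ρ ≤ dist e.1 m) ∧ 0 ≤ e.2 ∧ e.2 ≤ 1} ∧
      {e : E | ‖e.1‖ ≤ C ∧ (∀ m ∈ Gam, ρ ≤ dist e.1 m) ∧ 0 ≤ e.2 ∧ e.2 ≤ 1} ⊆ {e : E | e.1 ∉ Gam} := by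
  constructor
  · have h : {e : E | ‖e.1‖ ≤ C ∧ (∀ m ∈ Gam, ρ ≤ dist e.1 m) ∧ 0 ≤ e.2 ∧ e.2 ≤ 1} =
        (Metric.closedBall (0 : P2) C ×ˢ Icc (0 : ℝ) 1) ∩ ⋂ m ∈ Gam, {e : E | ρ ≤ dist e.1 m} := by
      ext e
      simp only [mem_inter_iff, mem_prod, mem_closedBall_zero_iff, mem_Icc, mem_iInter]
      constructor
      · rintro ⟨h1, h2, h3, h4⟩
        exact ⟨⟨h1, h3, h4⟩, h2⟩
      · rintro ⟨⟨h1, h3, h4⟩, h2⟩
        exact ⟨h1, h2, h3, h4⟩
    rw [h]
    refine ((isCompact_closedBall _ _).prod isCompact_Icc).inter_right ?_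
    exact isClosed_biInter fun m _ => isClosed_le continuous_const (by fun_prop)
  · rintro e ⟨-, h2, -⟩ hG
    have := h2 e.1 hG
    rw [dist_self] at this
    linarith

end AsmM

open AsmM

theorem I_Good0 : GoodFlow0 := by
  intro D
  have hF := facts D
  have hAlg := MAlg0.prf D hF
  have hTr := MTrans0.prf D hF
  have hFi := MField0.prf D hF
  have hAct := MAct0.prf D hF
  have hAG := MActGlue0.prf D hF
  have hFA := MFieldAct0.prf D hF
  have hPS := MPdSelf0.prf D hF
  have hPRA := MPdRA0.prf D hF
  have hC := MCompat0.prf D hF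
  have hid : ∀ i e, ∃ g : E → E, ContDiffAt ℝ ∞ g e ∧ g e = e ∧
      (∀ᶠ z in 𝓝 e, glue0 D i z i (g z)) ∧
      (∃ c : ℝ, c ≠ 0 ∧ fderiv ℝ g e (es0 D i e) = c • es0 D i e) ∧
      (∃ c : ℝ, c ≠ 0 ∧ fderiv ℝ g e (eu0 D i e) = c • eu0 D i e) := by
    intro i e
    refine ⟨id, contDiffAt_id, rfl, Eventually.of_forall fun z => (hAlg.glue_self i z z).2 rfl,
      ⟨1, one_ne_zero, ?_⟩, ⟨1, one_ne_zero, ?_⟩⟩ <;> rw [fderiv_id] <;> simp
  refine { isOpen_dom := hAlg.isOpen_dom
           dom_shift := hAlg.dom_shift
           glue_self := hAlg.glue_self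
           glue_dom := hAlg.glue_dom
           glue_symm := hAlg.glue_symm
           glue_trans := hTr
           glue_shift := hAlg.glue_shift
           closed := MClosed0.prf D hF
           es_cont := hFi.es_cont
           eu_cont := hFi.eu_cont
           es_shift := hFi.es_shift
           eu_shift := hFi.eu_shift
           indep := hFi.indep
           compat := ?_
           act_dom := hAct.act_dom
           act_smooth := hAct.act_smooth
           iact_one := hAct.iact_one
           act_one := hAct.act_one
           iact_mul := hAct.iact_mul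
           act_mul := hAct.act_mul
           act_glue := fun a i e j e' h => hAG i j a e e' h
           act_shift := hAct.act_shift
           free := MFree0.prf D hF
           pd := ?_
           compact := ?_
           es_act := hFA.es_act
           eu_act := hFA.eu_act
           nonempty := (MConn0.prf D hF).nonempty
           conn := (MConn0.prf D hF).conn
           chain := (MConn0.prf D hF).chain
           contr_s := MContrS0.prf D hF
           contr_u := MContrU0.prf D hF }
  · intro i e j e' he hg
    cases i <;> cases j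
    · obtain rfl := (hAlg.glue_self _ _ _).1 hg
      exact hid _ _
    · exact hC e e' he hg
    · exact MCompatSymm.prf dom0 (glue0 D) (es0 D) (eu0 D) hAlg hTr hFi .R .A hC e e' he hg
    · obtain rfl := (hAlg.glue_self _ _ _).1 hg
      exact hid _ _
  · intro i j
    cases i <;> cases j
    · exact hPS .R
    · exact hPRA
    · exact MPdSymm.prf dom0 (glue0 D) iact0 (act0 D) hAlg hAct hAG .R .A hPRA
    · exact hPS .A
  · obtain ⟨C, ρ, hρ, hreach⟩ := MComp0.prf MAct0.prf MActGlue0.prf D hF
    refine ⟨{.R, .A}, K0set C ρ, fun i _ => ?_, fun i e he => ?_⟩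
    · have h := compact_aux C ρ hρ
      exact h
    · obtain ⟨a, j, e', he', hg⟩ := hreach i e he
      refine ⟨a, j, ?_, e', he', hg⟩
      cases j <;> simp

theorem I_GoodA : GoodFlowA := by
  classical
  intro D
  have hF := facts D
  have hAlg := MAlgA.prf D hF
  have hTr := MTransA.prf D hF
  have hFi := MFieldA.prf D hF
  have hAct := MActA.prf D hF
  have hAG := MActGlueA.prf D hF
  have hFA := MFieldActA.prf D hF
  have hPS := MPdSelfA.prf D hF
  have hPRA := MPdRA.prf D hF
  have hPRg := MPdRg.prf D hF
  have hPAg := MPdAg.prf D hF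
  have hCRA := MCompatRA.prf D hF
  have hCRg := MCompatRg.prf D hF
  have hCAg := MCompatAg.prf D hF
  have hid : ∀ i e, ∃ g : E → E, ContDiffAt ℝ ∞ g e ∧ g e = e ∧
      (∀ᶠ z in 𝓝 e, glueA D i z i (g z)) ∧
      (∃ c : ℝ, c ≠ 0 ∧ fderiv ℝ g e (esA D i e) = c • esA D i e) ∧
      (∃ c : ℝ, c ≠ 0 ∧ fderiv ℝ g e (euA D i e) = c • euA D i e) := by
    intro i e
    refine ⟨id, contDiffAt_id, rfl, Eventually.of_forall fun z => (hAlg.glue_self i z z).2 rfl,
      ⟨1, one_ne_zero, ?_⟩, ⟨1, one_ne_zero, ?_⟩⟩ <;> rw [fderiv_id] <;> simp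
  have hCsymm := MCompatSymm.prf domA (glueA D) (esA D) (euA D) hAlg hTr hFi
  have hPsymm := MPdSymm.prf domA (glueA D) iactA (actA D) hAlg hAct hAG
  have hcl : ∀ i j, ClosedAt domA (glueA D) i j → ClosedAt domA (glueA D) j i := by
    intro i j h e e' x y he he' hx hy hg
    exact hAlg.glue_symm _ _ _ _ (h e' e y x he' he hy hx fun n => hAlg.glue_symm _ _ _ _ (hg n))
  have hclRA := MClosedRA.prf D hF
  have hclRg := MClosedRg.prf D hF
  have hclAg := MClosedAg.prf D hF
  have hclself : ∀ i, ClosedAt domA (glueA D) i i := by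
    intro i e e' x y _ _ hx hy hg
    have hxy : x = y := funext fun n => (hAlg.glue_self i _ _).1 (hg n)
    subst hxy
    exact (hAlg.glue_self i _ _).2 (tendsto_nhds_unique hx hy)
  refine { isOpen_dom := hAlg.isOpen_dom
           dom_shift := hAlg.dom_shift
           glue_self := hAlg.glue_self
           glue_dom := hAlg.glue_dom
           glue_symm := hAlg.glue_symm
           glue_trans := hTr
           glue_shift := hAlg.glue_shift
           closed := ?_
           es_cont := hFi.es_cont
           eu_cont := hFi.eu_cont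
           es_shift := hFi.es_shift
           eu_shift := hFi.eu_shift
           indep := hFi.indep
           compat := ?_
           act_dom := hAct.act_dom
           act_smooth := hAct.act_smooth
           iact_one := hAct.iact_one
           act_one := hAct.act_one
           iact_mul := hAct.iact_mul
           act_mul := hAct.act_mul
           act_glue := fun a i e j e' h => hAG i j a e e' h
           act_shift := hAct.act_shift
           free := MFreeA.prf D hF
           pd := ?_
           compact := ?_
           es_act := hFA.es_act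
           eu_act := hFA.eu_act
           nonempty := (MConnA.prf D hF).nonempty
           conn := (MConnA.prf D hF).conn
           chain := (MConnA.prf D hF).chain
           contr_s := MContrSA.prf D hF
           contr_u := MContrUA.prf D hF }
  · intro i j
    rcases i with _ | s | m <;> rcases j with _ | s' | m'
    · exact hclself _
    · exact hclRA s'
    · exact hclRg m'
    · exact hcl _ _ (hclRA s)
    · intro e e' x y he he' hx hy hg
      obtain rfl : s = s' := (hg 0).1
      exact hclself _ e e' x y he he' hx hy hg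
    · exact hclAg s m'
    · exact hcl _ _ (hclRg m)
    · exact hcl _ _ (hclAg s' m)
    · intro e e' x y he he' hx hy hg
      obtain rfl : m = m' := (hg 0).1
      exact hclself _ e e' x y he he' hx hy hg
  · intro i e j e' he hg
    rcases i with _ | s | m <;> rcases j with _ | s' | m'
    · obtain rfl := (hAlg.glue_self _ _ _).1 hg
      exact hid _ _
    · exact hCRA s' e e' he hg
    · exact hCRg m' e e' he hg
    · exact hCsymm _ _ (hCRA s) e e' he hg
    · obtain ⟨rfl, rfl⟩ := hg
      exact hid _ _
    · exact hCAg s m' e e' he hg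
    · exact hCsymm _ _ (hCRg m) e e' he hg
    · exact hCsymm _ _ (hCAg s' m) e e' he hg
    · obtain ⟨rfl, rfl⟩ := hg
      exact hid _ _
  · intro i j
    rcases i with _ | s | m <;> rcases j with _ | s' | m'
    · exact hPS.1
    · exact hPRA s'
    · exact hPRg m'
    · exact hPsymm _ _ (hPRA s)
    · exact hPS.2.1 s s'
    · exact hPAg s m'
    · exact hPsymm _ _ (hPRg m)
    · exact hPsymm _ _ (hPAg s' m)
    · exact hPS.2.2 m m'
  · obtain ⟨ρ1, hρ1, C1, h1⟩ := MCompR.prf MActA.prf MActGlueA.prf D hF
    obtain ⟨ρ2, hρ2, C2, h2⟩ := MCompAs.prf MActA.prf MActGlueA.prf D hF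
    obtain ⟨C3, h3⟩ := MCompg.prf D hF
    obtain ⟨ρ3, hρ3, h3'⟩ := h3 (max C1 (max C2 C3)) ((le_max_right _ _).trans (le_max_right _ _))
    set C := max C1 (max C2 C3) with hC
    set ρ := min ρ1 (min ρ2 ρ3) with hρ
    have hρpos : 0 < ρ := lt_min hρ1 (lt_min hρ2 hρ3)
    refine ⟨{.R, .A true, .A false, .g 0}, KAset C ρ, fun i hi => ?_, fun i e he => ?_⟩
    · have h := compact_aux C ρ hρpos
      rcases i with _ | s | m
      · exact h
      · exact h
      · refine ⟨?_, fun _ _ => trivial⟩
        by_cases hm : m = 0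
        · have h' : KAset C ρ (.g m) = Metric.closedBall (0 : P2) C ×ˢ Icc (0 : ℝ) 1 := by
            ext e
            simp only [KAset, mem_prod, mem_closedBall_zero_iff, mem_Icc]
            constructor
            · rintro ⟨-, h1, h2, h3⟩
              exact ⟨h1, h2, h3⟩
            · rintro ⟨h1, h2, h3⟩
              exact ⟨hm, h1, h2, h3⟩
          rw [h']
          exact (isCompact_closedBall _ _).prod isCompact_Icc
        · have h' : KAset C ρ (.g m) = ∅ := by
            ext e
            simp only [mem_empty_iff_false, iff_false]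
            rintro ⟨h1, -⟩
            exact hm h1
          rw [h']
          exact isCompact_empty
    · have hreach : Reach (glueA D) iactA (actA D) (KAset C ρ) i e := by
        rcases i with _ | s | m
        · exact h1 ρ hρpos (min_le_left _ _) C (le_max_left _ _) e he
        · exact h2 ρ hρpos ((min_le_right _ _).trans (min_le_left _ _)) C
            ((le_max_left _ _).trans (le_max_right _ _)) s e he
        · exact h3' ρ hρpos ((min_le_right _ _).trans (min_le_right _ _)) m e he
      obtain ⟨a, j, e', he', hg⟩ := hreach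
      refine ⟨a, j, ?_, e', he', hg⟩
      rcases j with _ | s | m
      · simp
      · cases s <;> simp
      · obtain rfl : m = 0 := he'.1
        simp

end Pool.Agent.Work.MP_0d206b_gt
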