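import Pool.Agent.Work.MP_0d206b_gt.Bd.StL
import Pool.Agent.Work.MP_0d206b_gt.Bd.U2
import Pool.Agent.Work.MP_0d206b_gt.Bd.U1

/-! # MP_0d206b_gt: assembly of module U -/

set_option autoImplicit false

open Set Filter Topology

namespace Pool.Agent.Work.MP_0d206b_gt

namespace AsmU

open U

theorem sides : StSides.{0} := I_Sides I_T1
theorem sideCases : StSideCases.{0} := I_SideCases sides
theorem within : StWithin.{0} := I_Within sides
theorem glue : StGlue.{0} := I_Glue sides sideCases
theorem near : StNear.{0} := I_Near sides sideCases
theorem extend : StExtend.{0} := I_Extend I_Shrink sides sideCases glue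
theorem line : StLine.{0} := I_Line I_T1 I_Shrink sides sideCases extend I_Lim
theorem maxFull : StMaxFull.{0} := I_MaxFull I_T1 sides sideCases near
theorem fullLine : StFullLine.{0} := I_FullLine line maxFull
theorem germ : StGerm.{0} := I_Germ sides sideCases within
theorem countable : StCountable.{0} := I_Countable I_T1 sides sideCases
theorem rayFull : StRayFull.{0} := I_RayFull sides sideCases near
theorem partner : StPartner.{0, 0} := I_Partner I_T1 I_T1 I_Shrink sides sides sideCases sideCases
  within within germ germ
theorem step : StStep.{0, 0} := I_Step sides sides sideCases sideCases near fullLine countable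
  countable I_Mark rayFull rayFull I_GlueHomeo partner
theorem reachRay : StReachRay.{0, 0} := I_ReachRay sides sideCases fullLine step
theorem reach : StReach.{0, 0} := I_Reach reachRay
theorem init : StInit.{0, 0} := I_Init fullLine fullLine countable countable I_Mark
theorem unique : StUnique.{0, 0} := I_Unique reach reach I_Symm I_Symm init I_LimHomeo I_Cover I_Cover
theorem bridge : StBridge.{0} := I_Bridge sides sideCases within germ
theorem interval : StInterval.{0} := I_Interval sides sideCases bridge
theorem germLem : StGermLem.{0} := I_GermLem sides sideCases within germ bridge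
theorem cut : StCut.{0, 0} := I_Cut I_T1 I_Cocycle
theorem sc1 : StSC1.{0, 0} := I_SC1 cut

theorem finalU : StFinalU.{0, 0} := by
  intro X Y _ _ hX hY
  haveI := hX.sc
  haveI := hY.sc
  exact unique (bridge.1 hX.toIsSC1) (bridge.1 hY.toIsSC1) (bridge.2 hX) (bridge.2 hY)

end AsmU

theorem I_U03 : U03 := fun _ _ hX Ω hΩ f hf => AsmU.interval hX Ω hΩ f hf

theorem I_U05 : U05 := fun _ _ hX f hf t w hw => AsmU.germLem hX f hf t w hw

theorem I_Sep : Sep := by
  intro N X _ _ _ _ q hq hqo hqs hpre hloc x
  refine (AsmU.cut q ⟨hqs, hq, hqo⟩ hpre ?_).cut x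
  intro x
  obtain ⟨f, hf, t, ht⟩ := hloc x
  refine ⟨fun s => f (s + t), hf.comp (Homeomorph.addRight t).isOpenEmbedding, ?_⟩
  simpa using ht

end Pool.Agent.Work.MP_0d206b_gt
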