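import Pool.Agent.Work.MP_0d206b_gt.Bd.StL

/-! # MP_0d206b_gt: the two-set Čech lemma -/

set_option autoImplicit false

open Set Filter Topology

namespace Pool.Agent.Work.MP_0d206b_gt

namespace CechAux

variable {N : Type} [TopologicalSpace N]

/-- The transition function. -/
def tr (n : N → Bool) (i j : Bool) (x : N) (b : Bool) : Bool :=
  if i = j then b else (n x ^^ b)

omit [TopologicalSpace N] in
theorem tr_comp (n : N → Bool) (i j k : Bool) (x : N) (v : Bool) :
    tr n j k x (tr n i j x v) = tr n i k x v := by
  unfold tr
  cases i <;> cases j <;> cases k <;> cases v <;> cases n x <;> rfl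

/-- The double cover. -/
noncomputable def core (U V : Set N) (hU : IsOpen U) (hV : IsOpen V) (hUV : U ∪ V = univ)
    (n : N → Bool) (hn : ContinuousOn n (U ∩ V)) : FiberBundleCore Bool N Bool where
  baseSet i := if i then V else U
  isOpen_baseSet i := by cases i <;> simp [hU, hV]
  indexAt x := open Classical in decide (x ∉ U)
  mem_baseSet_at x := by
    by_cases h : x ∈ U
    · simp [h]
    · have : x ∈ U ∪ V := by rw [hUV]; trivial
      simp [h, this.resolve_left h]
  coordChange := tr n
  coordChange_self i x _ v := by simp [tr]
  continuousOn_coordChange i j := by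
    by_cases hij : i = j
    · have : (fun p : N × Bool => tr n i j p.1 p.2) = fun p => p.2 := by
        funext p; simp [tr, hij]
      rw [this]
      exact continuous_snd.continuousOn
    · have : (fun p : N × Bool => tr n i j p.1 p.2) = fun p => (n p.1 ^^ p.2) := by
        funext p; simp [tr, hij]
      rw [this]
      have hc : Continuous (fun q : Bool × Bool => (q.1 ^^ q.2)) := continuous_of_discreteTopology
      refine hc.comp_continuousOn (f := fun p : N × Bool => (n p.1, p.2)) ?_
      refine ContinuousOn.prodMk (hn.comp continuous_fst.continuousOn ?_) continuous_snd.continuousOn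
      rintro p ⟨⟨h1, h2⟩, -⟩
      cases i <;> cases j <;> simp_all
  coordChange_comp i j k x _ v := tr_comp n i j k x v

theorem core_apply (U V : Set N) (hU : IsOpen U) (hV : IsOpen V) (hUV : U ∪ V = univ)
    (n : N → Bool) (hn : ContinuousOn n (U ∩ V)) (i : Bool)
    (p : (core U V hU hV hUV n hn).TotalSpace) :
    ((core U V hU hV hUV n hn).localTriv i p).2 =
      tr n (open Classical in decide (p.1 ∉ U)) i p.1 p.2 := rfl

end CechAux

open CechAux in
theorem I_Cech : Cech := by
  intro N _ _ _ U V hU hV hUV n hn
  classical
  let Z := core U V hU hV hUV n hn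
  have hcov : IsCoveringMap (Bundle.TotalSpace.proj : Z.TotalSpace → N) :=
    FiberBundle.isCoveringMap (F := Bool) (E := Z.Fiber)
  obtain ⟨n₀⟩ : Nonempty N := inferInstance
  obtain ⟨F, ⟨-, hF⟩, -⟩ := hcov.existsUnique_continuousMap_lifts (ContinuousMap.id N) n₀
    (⟨n₀, (false : Bool)⟩ : Z.TotalSpace) rfl
  have hF1 : ∀ x, (F x).1 = x := fun x => congrFun hF x
  have hc : ∀ i : Bool, ∀ x ∈ Z.baseSet i,
      ContinuousAt (fun m => (Z.localTriv i (F m)).2) x := by
    intro i x hx
    have h1 : ContinuousAt (Z.localTriv i) (F x) := by
      apply (Z.localTriv i).continuousAt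
      rw [Z.mem_localTriv_source, hF1 x]
      exact hx
    have h2 : ContinuousAt (fun m => Z.localTriv i (F m)) x :=
      ContinuousAt.comp (g := Z.localTriv i) (f := F) h1 F.continuous.continuousAt
    exact continuous_snd.continuousAt.comp h2
  have hval : ∀ (i : Bool) (x : N), (Z.localTriv i (F x)).2 =
      tr n (decide (x ∉ U)) i x (F x).2 := by
    intro i x
    have := core_apply U V hU hV hUV n hn i (F x)
    rw [show (Z.localTriv i (F x)).2 = _ from this]
    rw [hF1 x]
  refine ⟨fun x => (Z.localTriv false (F x)).2, fun x => (Z.localTriv true (F x)).2, ?_, ?_, ?_⟩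
  · intro x hx
    exact (hc false x (show x ∈ (if false then V else U : Set N) by simpa using hx)).continuousWithinAt
  · intro x hx
    exact (hc true x (show x ∈ (if true then V else U : Set N) by simpa using hx)).continuousWithinAt
  · rintro x ⟨hxU, hxV⟩
    simp only [hval]
    simp only [hxU, not_true_eq_false, decide_false, tr]
    cases n x <;> cases (F x).2 <;> rfl

end Pool.Agent.Work.MP_0d206b_gt
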