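import Pool.Agent.Work.MP_0d206b_gt.Asm.Good

/-! # MP_0d206b_gt: compatibility of the plane fields (`CP0s`, `CPAs`, `CPAu`) -/

set_option autoImplicit false

open Set Filter Topology
open scoped ContDiff

noncomputable section

namespace Pool.Agent.Work.MP_0d206b_gt

open MP0d206b.Et (shift)

theorem fderiv_shift_dir {ι : Type} {dom : ι → Set E} {glue : ι → E → ι → E → Prop}
    (h : GoodGlue dom glue) {i j : ι} {e e' : E} (hg : glue i e j e') {g : E → E}
    (hgd : ContDiffAt ℝ ∞ g e) (hge : g e = e') (hev : ∀ᶠ z in 𝓝 e, glue i z j (g z)) :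
    fderiv ℝ g e ((0, 0), 1) = ((0, 0), 1) := by
  have hc : HasDerivAt (fun t : ℝ => shift t e) (((0, 0), 1) : E) 0 := by
    have h1 : (fun t : ℝ => shift t e) = fun t : ℝ => e + t • (((0, 0), 1) : E) := by
      funext t
      refine Prod.ext (Prod.ext ?_ ?_) ?_
      · show e.1.1 = e.1.1 + t * 0
        ring
      · show e.1.2 = e.1.2 + t * 0
        ring
      · show e.2 + t = e.2 + t * 1
        ring
    rw [h1]
    have h2 := ((hasDerivAt_id (0 : ℝ)).smul_const (((0, 0), 1) : E)).const_add e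
    simpa using h2
  have hc' : HasDerivAt (fun t : ℝ => shift t e') (((0, 0), 1) : E) 0 := by
    have h1 : (fun t : ℝ => shift t e') = fun t : ℝ => e' + t • (((0, 0), 1) : E) := by
      funext t
      refine Prod.ext (Prod.ext ?_ ?_) ?_
      · show e'.1.1 = e'.1.1 + t * 0
        ring
      · show e'.1.2 = e'.1.2 + t * 0
        ring
      · show e'.2 + t = e'.2 + t * 1
        ring
    rw [h1]
    have h2 := ((hasDerivAt_id (0 : ℝ)).smul_const (((0, 0), 1) : E)).const_add e'
    simpa using h2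
  have h0 : shift (0 : ℝ) e = e := by
    refine Prod.ext rfl ?_
    show e.2 + 0 = e.2
    ring
  have hfd : HasFDerivAt g (fderiv ℝ g e) (shift (0 : ℝ) e) := by
    rw [h0]
    exact (hgd.differentiableAt (by simp)).hasFDerivAt
  have h3 : HasDerivAt (fun t : ℝ => g (shift t e)) (fderiv ℝ g e ((0, 0), 1)) 0 :=
    hfd.comp_hasDerivAt (0 : ℝ) hc
  have hcont : Tendsto (fun t : ℝ => shift t e) (𝓝 0) (𝓝 e) := by
    have := hc.continuousAt.tendsto
    rwa [h0] at this
  have hevt : (fun t : ℝ => g (shift t e)) =ᶠ[𝓝 0] fun t => shift t e' := by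
    filter_upwards [hcont.eventually hev] with t ht
    have h4 : glue i (shift t e) j (shift t e') := h.glue_shift _ _ _ _ t hg
    exact (h.glue_self j _ _).1 (h.glue_trans _ _ _ _ _ _ (h.glue_symm _ _ _ _ ht) h4)
  exact (h3.congr_of_eventuallyEq hevt.symm).unique hc'

theorem compat_of_good {ι : Type} {dom : ι → Set E} {glue : ι → E → ι → E → Prop}
    {es eu : ι → E → E} (h : GoodGlue dom glue) (hf : GoodField dom glue es eu) :
    Compat dom glue es ∧ Compat dom glue eu := by
  constructor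
  · intro i j e e' he hg
    obtain ⟨g, hgd, hge, hev, ⟨c, -, hc⟩, -⟩ := hf.compat i e j e' he hg
    refine ⟨g, hgd, hge, hev, fun v hv => ?_⟩
    obtain ⟨a, b, rfl⟩ := Submodule.mem_span_pair.1 hv
    rw [map_add, map_smul, map_smul, hc, fderiv_shift_dir h hg hgd hge hev]
    exact Submodule.mem_span_pair.2 ⟨a * c, b, by rw [mul_smul]⟩
  · intro i j e e' he hg
    obtain ⟨g, hgd, hge, hev, -, ⟨c, -, hc⟩⟩ := hf.compat i e j e' he hg
    refine ⟨g, hgd, hge, hev, fun v hv => ?_⟩
    obtain ⟨a, b, rfl⟩ := Submodule.mem_span_pair.1 hv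
    rw [map_add, map_smul, map_smul, hc, fderiv_shift_dir h hg hgd hge hev]
    exact Submodule.mem_span_pair.2 ⟨a * c, b, by rw [mul_smul]⟩

theorem I_CP0s : CP0s := fun D =>
  (compat_of_good (I_Good0 D).toGoodGlue (I_Good0 D).toGoodField).1

theorem I_CPAs : CPAs := fun D =>
  (compat_of_good (I_GoodA D).toGoodGlue (I_GoodA D).toGoodField).1

theorem I_CPAu : CPAu := fun D =>
  (compat_of_good (I_GoodA D).toGoodGlue (I_GoodA D).toGoodField).2

end Pool.Agent.Work.MP_0d206b_gt
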