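import Pool.Agent.Work.MP_0d206b_gt.Main
import Pool.Agent.Work.MP_0d206b_gt.D.All
import Pool.Agent.Work.MP_0d206b_gt.Asm.Good
import Pool.Agent.Work.MP_0d206b_gt.Asm.U
import Pool.Agent.Work.MP_0d206b_gt.Et.Realize
import Pool.Agent.Work.MP_0d206b_gt.Bd.G1
import Pool.Agent.Work.MP_0d206b_gt.L.All

/-! # MP_0d206b_gt: the working form of the theorem, without hypotheses -/

set_option autoImplicit false

namespace Pool.Agent.Work.MP_0d206b_gt

theorem mainStatement : MainStatement :=
  main D.da I_Good0 I_GoodA stRealize G.I_GU L013_all L015_all LA24_all LU2_all AsmU.finalU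

end Pool.Agent.Work.MP_0d206b_gt
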